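import Pool.Agent.H51.EI.TargetsC

/-! Board `exi_modules`, row HAN: Hermite's numbers, analytic part. -/

set_option autoImplicit false

namespace Pool.Agent.H39.EI.HAN

open Pool.Agent.H51.EI Polynomial Finset

/-- length of a complex polynomial -/
private noncomputable def ln (P : ℂ[X]) : ℝ := ∑ i ∈ P.support, ‖P.coeff i‖

private lemma ln_eq (P : ℂ[X]) (S : Finset ℕ) (h : P.support ⊆ S) :
    ln P = ∑ i ∈ S, ‖P.coeff i‖ := by
  unfold ln
  apply Finset.sum_subset h
  intro i _ hi
  rw [Polynomial.notMem_support_iff] at hi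
  rw [hi]; simp

private lemma ln_nonneg (P : ℂ[X]) : 0 ≤ ln P :=
  Finset.sum_nonneg fun _ _ => norm_nonneg _

private lemma ln_zero : ln 0 = 0 := by simp [ln]

private lemma ln_monomial (n : ℕ) (a : ℂ) : ln (monomial n a) = ‖a‖ := by
  rw [ln_eq _ {n} (Polynomial.support_monomial_subset n a)]
  simp

private lemma ln_one : ln 1 = 1 := by
  have h := ln_monomial 0 1
  simpa using h

private lemma ln_C (a : ℂ) : ln (C a) = ‖a‖ := by
  have h := ln_monomial 0 a
  simpa using h

private lemma ln_X : ln X = 1 := by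
  have h := ln_monomial 1 1
  rw [Polynomial.monomial_one_one_eq_X] at h
  simpa using h

private lemma ln_add (P Q : ℂ[X]) : ln (P + Q) ≤ ln P + ln Q := by
  rw [ln_eq (P + Q) (P.support ∪ Q.support) Polynomial.support_add,
    ln_eq P (P.support ∪ Q.support) Finset.subset_union_left,
    ln_eq Q (P.support ∪ Q.support) Finset.subset_union_right, ← Finset.sum_add_distrib]
  apply Finset.sum_le_sum
  intro i _
  rw [Polynomial.coeff_add]
  exact norm_add_le _ _

private lemma ln_neg (P : ℂ[X]) : ln (-P) = ln P := by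
  simp [ln]

private lemma ln_sum {ι : Type*} (s : Finset ι) (f : ι → ℂ[X]) :
    ln (∑ i ∈ s, f i) ≤ ∑ i ∈ s, ln (f i) := by
  classical
  induction s using Finset.induction_on with
  | empty => simp [ln_zero]
  | insert a s ha ih =>
    rw [Finset.sum_insert ha, Finset.sum_insert ha]
    exact (ln_add _ _).trans (by linarith)

private lemma ln_mul (P Q : ℂ[X]) : ln (P * Q) ≤ ln P * ln Q := by
  rw [Polynomial.mul_eq_sum_sum]
  refine (ln_sum _ _).trans ?_
  unfold Polynomial.sum
  calc ∑ i ∈ P.support, ln (∑ j ∈ Q.support, (monomial (i + j)) (P.coeff i * Q.coeff j))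
      ≤ ∑ i ∈ P.support, ∑ j ∈ Q.support, ‖P.coeff i‖ * ‖Q.coeff j‖ := by
        apply Finset.sum_le_sum
        intro i _
        refine (ln_sum _ _).trans (Finset.sum_le_sum fun j _ => ?_)
        rw [ln_monomial, norm_mul]
    _ = ln P * ln Q := by
        unfold ln
        rw [Finset.sum_mul_sum]

private lemma ln_prod {ι : Type*} (s : Finset ι) (f : ι → ℂ[X]) :
    ln (∏ i ∈ s, f i) ≤ ∏ i ∈ s, ln (f i) := by
  classical
  induction s using Finset.induction_on with
  | empty => simp [ln_one]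
  | insert a s ha ih =>
    rw [Finset.prod_insert ha, Finset.prod_insert ha]
    exact (ln_mul _ _).trans (mul_le_mul_of_nonneg_left ih (ln_nonneg _))

private lemma ln_pow (P : ℂ[X]) (n : ℕ) {c : ℝ} (h : ln P ≤ c) : ln (P ^ n) ≤ c ^ n := by
  have hc : 0 ≤ c := (ln_nonneg P).trans h
  induction n with
  | zero => rw [pow_zero, pow_zero, ln_one]
  | succ n ih =>
    rw [pow_succ, pow_succ]
    exact (ln_mul _ _).trans (mul_le_mul ih h (ln_nonneg _) (by positivity))

/-- the sum of the derivatives at zero -/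
private lemma sumI_zero (P : ℂ[X]) {N : ℕ} (hN : P.natDegree ≤ N) :
    ‖P.sumIDeriv.eval 0‖ ≤ (N.factorial : ℝ) * ln P := by
  have h1 : P.sumIDeriv.eval 0 = ∑ i ∈ range (P.natDegree + 1), (i.factorial : ℂ) * P.coeff i := by
    rw [sumIDeriv_apply, Polynomial.eval_finsetSum]
    refine Finset.sum_congr rfl fun i _ => ?_
    rw [← Polynomial.coeff_zero_eq_eval_zero, Polynomial.coeff_iterate_derivative]
    simp [Nat.descFactorial_self]
  rw [h1, ln_eq P _ Polynomial.supp_subset_range_natDegree_succ, Finset.mul_sum]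
  refine (norm_sum_le _ _).trans (Finset.sum_le_sum fun i hi => ?_)
  rw [norm_mul, Complex.norm_natCast]
  refine mul_le_mul_of_nonneg_right ?_ (norm_nonneg _)
  have : i ≤ N := by
    have := Finset.mem_range.1 hi
    omega
  exact_mod_cast Nat.factorial_le this

/-- the polynomial over the complex numbers -/
private lemma toC_hf {O : Subring ℂ} (a b : O) (D p : ℕ) :
    toC (hf a b D p) =
      X ^ (p - 1) * ∏ l ∈ Finset.Icc 1 D, (C (b : ℂ) * X - C ((l : ℂ) * (a : ℂ))) ^ p := by
  unfold toC hf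
  simp [Polynomial.map_mul, Polynomial.map_prod, Polynomial.map_pow, Polynomial.map_sub]

theorem pf_HAN : T_HAN := by
  intro O a b D ha hb
  set α : ℂ := (a : ℂ) with hα
  set β : ℂ := (b : ℂ) with hβ
  set R : ℝ := D * ‖α / β‖ + 1 with hR
  have hR1 : 1 ≤ R := by
    have : (0 : ℝ) ≤ D * ‖α / β‖ := by positivity
    linarith
  have hR0 : 0 < R := by linarith
  set B : ℝ := ‖β‖ * R + D * ‖α‖ + 1 with hB
  have hB1 : 1 ≤ B := by
    have : (0 : ℝ) ≤ ‖β‖ * R + D * ‖α‖ := by positivity
    linarith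
  have hB0 : 0 < B := by linarith
  have hlogB : 0 ≤ Real.log B := Real.log_nonneg hB1
  have hlogD : 0 ≤ Real.log ((D : ℝ) + 1) := Real.log_nonneg (by
    have : (0 : ℝ) ≤ D := Nat.cast_nonneg D
    linarith)
  have heR : 1 ≤ Real.exp R := Real.one_le_exp hR0.le
  set c1 : ℝ := (R * Real.exp R * Real.exp R) * (R * B ^ D) with hc1
  set c2 : ℝ := ((D : ℝ) + 1) * (2 * Real.log ((D : ℝ) + 1) + 1) + 2 * D * Real.log B with hc2
  have hk : 1 ≤ R * Real.exp R * Real.exp R := by
    have h1 : 1 ≤ R * Real.exp R := one_le_mul_of_one_le_of_one_le hR1 heR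
    exact one_le_mul_of_one_le_of_one_le h1 heR
  have hRB : 1 ≤ R * B ^ D := one_le_mul_of_one_le_of_one_le hR1 (one_le_pow₀ hB1)
  have hc11 : 1 ≤ c1 := one_le_mul_of_one_le_of_one_le hk hRB
  refine ⟨max c1 c2, hc11.trans (le_max_left _ _), ?_⟩
  intro p hp
  have hFe : toC (hf a b D p) =
      X ^ (p - 1) * ∏ l ∈ Finset.Icc 1 D, (C β * X - C ((l : ℂ) * α)) ^ p := toC_hf a b D p
  set F : ℂ[X] := toC (hf a b D p) with hFd
  -- bound on the disc
  have hev : ∀ z : ℂ, ‖z‖ ≤ R → ‖F.eval z‖ ≤ (R * B ^ D) ^ p := by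
    intro z hz
    rw [hFe, Polynomial.eval_mul, Polynomial.eval_pow, Polynomial.eval_X, Polynomial.eval_prod,
      norm_mul, norm_pow, norm_prod]
    have e1 : ‖z‖ ^ (p - 1) ≤ R ^ p := by
      calc ‖z‖ ^ (p - 1) ≤ R ^ (p - 1) := pow_le_pow_left₀ (norm_nonneg _) hz _
        _ ≤ R ^ p := pow_le_pow_right₀ hR1 (Nat.sub_le _ _)
    have e2 : ∏ l ∈ Finset.Icc 1 D, ‖((C β * X - C ((l : ℂ) * α)) ^ p).eval z‖ ≤
        ∏ _l ∈ Finset.Icc 1 D, B ^ p := by
      refine Finset.prod_le_prod (fun _ _ => norm_nonneg _) fun l hl => ?_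
      rw [Polynomial.eval_pow, norm_pow]
      refine pow_le_pow_left₀ (norm_nonneg _) ?_ _
      simp only [Polynomial.eval_sub, Polynomial.eval_mul, Polynomial.eval_C, Polynomial.eval_X]
      have hlD : (l : ℝ) ≤ D := by exact_mod_cast (Finset.mem_Icc.1 hl).2
      calc ‖β * z - (l : ℂ) * α‖ ≤ ‖β * z‖ + ‖(l : ℂ) * α‖ := norm_sub_le _ _
        _ = ‖β‖ * ‖z‖ + l * ‖α‖ := by rw [norm_mul, norm_mul, Complex.norm_natCast]
        _ ≤ ‖β‖ * R + D * ‖α‖ := by gcongr
        _ ≤ B := by rw [hB]; linarith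
    have e3 : ∏ _l ∈ Finset.Icc 1 D, B ^ p = (B ^ D) ^ p := by
      rw [Finset.prod_const, Nat.card_Icc, Nat.add_sub_cancel, ← pow_mul, ← pow_mul, mul_comm]
    rw [mul_pow]
    exact mul_le_mul e1 (e2.trans e3.le) (Finset.prod_nonneg fun _ _ => norm_nonneg _)
      (by positivity)
  have hfac : (0 : ℝ) < ((p - 1).factorial : ℝ) := by exact_mod_cast Nat.factorial_pos _
  have hfac1 : (1 : ℝ) ≤ ((p - 1).factorial : ℝ) := by exact_mod_cast Nat.factorial_pos _
  constructor
  · intro l hl
    set s : ℂ := (l : ℂ) * (α / β) with hs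
    have hsR : ‖s‖ ≤ R := by
      rw [hs, norm_mul, Complex.norm_natCast, hR]
      have hlD : (l : ℝ) ≤ D := by exact_mod_cast hl
      have : (l : ℝ) * ‖α / β‖ ≤ D * ‖α / β‖ := by gcongr
      linarith
    have e0 : hF a b D p 0 = F.sumIDeriv.eval 0 / ((p - 1).factorial : ℂ) := by
      unfold hF
      rw [← hFd]
      simp
    have el : hF a b D p l = F.sumIDeriv.eval s / ((p - 1).factorial : ℂ) := by
      unfold hF
      rw [← hFd]
    rw [e0, el, ← mul_div_assoc, ← sub_div, norm_div, Complex.norm_natCast]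
    refine div_le_div_of_nonneg_right ?_ hfac.le
    have hint := LindemannWeierstrass.integral_exp_mul_eval F s
    have heq : Complex.exp s * F.sumIDeriv.eval 0 - F.sumIDeriv.eval s =
        Complex.exp s * (s * ∫ x in (0 : ℝ)..1, Complex.exp (-(x • s)) * F.eval (x • s)) := by
      rw [hint, mul_add, mul_neg, ← mul_assoc, ← Complex.exp_add, add_neg_cancel, Complex.exp_zero]
      ring
    rw [heq, norm_mul, norm_mul]
    have hI : ‖∫ x in (0 : ℝ)..1, Complex.exp (-(x • s)) * F.eval (x • s)‖ ≤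
        Real.exp R * (R * B ^ D) ^ p := by
      have h := intervalIntegral.norm_integral_le_of_norm_le_const (a := (0 : ℝ)) (b := 1)
        (f := fun x : ℝ => Complex.exp (-(x • s)) * F.eval (x • s))
        (C := Real.exp R * (R * B ^ D) ^ p) (by
          intro x hx
          rw [Set.uIoc_of_le zero_le_one] at hx
          have hxs : ‖x • s‖ ≤ R := by
            rw [norm_smul, Real.norm_of_nonneg hx.1.le]
            calc x * ‖s‖ ≤ 1 * ‖s‖ := by gcongr; exact hx.2
              _ ≤ R := by rw [one_mul]; exact hsR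
          rw [norm_mul]
          refine mul_le_mul ?_ (hev _ hxs) (norm_nonneg _) (Real.exp_pos _).le
          refine (Complex.norm_exp_le_exp_norm _).trans (Real.exp_le_exp.2 ?_)
          rw [norm_neg]
          exact hxs)
      simpa using h
    have he : ‖Complex.exp s‖ ≤ Real.exp R :=
      (Complex.norm_exp_le_exp_norm _).trans (Real.exp_le_exp.2 hsR)
    calc ‖Complex.exp s‖ * (‖s‖ * ‖∫ x in (0 : ℝ)..1, Complex.exp (-(x • s)) * F.eval (x • s)‖)
        ≤ Real.exp R * (R * (Real.exp R * (R * B ^ D) ^ p)) := by gcongr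
      _ = (R * Real.exp R * Real.exp R) * (R * B ^ D) ^ p := by ring
      _ ≤ (R * Real.exp R * Real.exp R) ^ p * (R * B ^ D) ^ p := by
          refine mul_le_mul_of_nonneg_right ?_ (by positivity)
          exact le_self_pow₀ hk (by omega)
      _ = c1 ^ p := by rw [hc1, mul_pow (R * Real.exp R * Real.exp R)]
      _ ≤ max c1 c2 ^ p := pow_le_pow_left₀ (by linarith) (le_max_left _ _) _
  · have e0 : hF a b D p 0 = F.sumIDeriv.eval 0 / ((p - 1).factorial : ℂ) := by
      unfold hF
      rw [← hFd]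
      simp
    have hdeg : F.natDegree ≤ (D + 1) * p := by
      rw [hFe]
      refine natDegree_mul_le.trans ?_
      have h1 : (∏ l ∈ Finset.Icc 1 D, (C β * X - C ((l : ℂ) * α)) ^ p).natDegree ≤ D * p := by
        refine (natDegree_prod_le _ _).trans ?_
        calc ∑ l ∈ Finset.Icc 1 D, ((C β * X - C ((l : ℂ) * α)) ^ p).natDegree
            ≤ ∑ _l ∈ Finset.Icc 1 D, p := by
              refine Finset.sum_le_sum fun l _ => ?_
              refine natDegree_pow_le.trans ?_
              have h2 : (C β * X - C ((l : ℂ) * α)).natDegree ≤ 1 := by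
                compute_degree
              calc p * (C β * X - C ((l : ℂ) * α)).natDegree ≤ p * 1 := Nat.mul_le_mul_left _ h2
                _ = p := mul_one _
          _ = D * p := by simp
      have h3 : (X ^ (p - 1) : ℂ[X]).natDegree ≤ p := by
        rw [natDegree_X_pow]
        omega
      calc (X ^ (p - 1) : ℂ[X]).natDegree +
            (∏ l ∈ Finset.Icc 1 D, (C β * X - C ((l : ℂ) * α)) ^ p).natDegree
          ≤ p + D * p := by omega
        _ = (D + 1) * p := by ring
    have hln : ln F ≤ (B ^ D) ^ p := by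
      rw [hFe]
      refine (ln_mul _ _).trans ?_
      have h1 : ln (X ^ (p - 1) : ℂ[X]) ≤ 1 := by
        have := ln_pow X (p - 1) ln_X.le
        simpa using this
      have h2 : ln (∏ l ∈ Finset.Icc 1 D, (C β * X - C ((l : ℂ) * α)) ^ p) ≤ (B ^ D) ^ p := by
        refine (ln_prod _ _).trans ?_
        have h3 : ∏ l ∈ Finset.Icc 1 D, ln ((C β * X - C ((l : ℂ) * α)) ^ p) ≤
            ∏ _l ∈ Finset.Icc 1 D, B ^ p := by
          refine Finset.prod_le_prod (fun _ _ => ln_nonneg _) fun l hl => ?_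
          refine ln_pow _ _ ?_
          have hlD : (l : ℝ) ≤ D := by exact_mod_cast (Finset.mem_Icc.1 hl).2
          calc ln (C β * X - C ((l : ℂ) * α)) ≤ ln (C β * X) + ln (-C ((l : ℂ) * α)) := by
                rw [sub_eq_add_neg]; exact ln_add _ _
            _ ≤ ‖β‖ * 1 + l * ‖α‖ := by
                rw [ln_neg, ln_C, norm_mul, Complex.norm_natCast]
                have := ln_mul (C β) X
                rw [ln_C, ln_X] at this
                linarith
            _ ≤ ‖β‖ * R + D * ‖α‖ := by gcongr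
            _ ≤ B := by rw [hB]; linarith
        refine h3.trans (le_of_eq ?_)
        rw [Finset.prod_const, Nat.card_Icc, Nat.add_sub_cancel, ← pow_mul, ← pow_mul, mul_comm]
      calc ln (X ^ (p - 1) : ℂ[X]) * ln (∏ l ∈ Finset.Icc 1 D, (C β * X - C ((l : ℂ) * α)) ^ p)
          ≤ 1 * (B ^ D) ^ p := mul_le_mul h1 h2 (ln_nonneg _) zero_le_one
        _ = (B ^ D) ^ p := one_mul _
    have hmain : ‖hF a b D p 0‖ ≤ ((((D + 1) * p).factorial : ℕ) : ℝ) * (B ^ D) ^ p := by
      rw [e0, norm_div, Complex.norm_natCast]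
      refine (div_le_self (norm_nonneg _) hfac1).trans ?_
      refine (sumI_zero F hdeg).trans ?_
      gcongr
    refine hmain.trans ?_
    have hp1 : (1 : ℝ) ≤ p := by exact_mod_cast hp
    have hp0 : (0 : ℝ) < p := by linarith
    have hDp : (0 : ℝ) < ((D : ℝ) + 1) * p := by positivity
    have hL : 1 / 2 ≤ Real.log ((p : ℝ) + 1) := by
      have h1 : Real.log 2 ≤ Real.log ((p : ℝ) + 1) := Real.log_le_log (by norm_num) (by linarith)
      have h2 := Real.log_two_gt_d9
      linarith
    have hL0 : 0 ≤ Real.log ((p : ℝ) + 1) := by linarith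
    have h1 : ((((D + 1) * p).factorial : ℕ) : ℝ) ≤
        Real.exp (((D : ℝ) + 1) * p * Real.log (((D : ℝ) + 1) * p)) := by
      have h2 : ((((D + 1) * p).factorial : ℕ) : ℝ) ≤ ((((D + 1) * p) ^ ((D + 1) * p) : ℕ) : ℝ) := by
        exact_mod_cast Nat.factorial_le_pow _
      refine h2.trans (le_of_eq ?_)
      have h3 : Real.exp (((D : ℝ) + 1) * p * Real.log (((D : ℝ) + 1) * p)) =
          (((D : ℝ) + 1) * p) ^ ((D + 1) * p) := by
        have h4 : ((D : ℝ) + 1) * p * Real.log (((D : ℝ) + 1) * p) =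
            (((D + 1) * p : ℕ) : ℝ) * Real.log (((D : ℝ) + 1) * p) := by push_cast; ring
        rw [h4, Real.exp_nat_mul, Real.exp_log hDp]
      rw [h3]
      push_cast
      ring
    have h2 : (B ^ D) ^ p = Real.exp (p * (D * Real.log B)) := by
      rw [Real.exp_nat_mul, Real.exp_nat_mul, Real.exp_log hB0]
    rw [h2]
    refine (mul_le_mul_of_nonneg_right h1 (Real.exp_pos _).le).trans ?_
    rw [← Real.exp_add, Real.exp_le_exp]
    have h3 : Real.log (((D : ℝ) + 1) * p) ≤ (2 * Real.log ((D : ℝ) + 1) + 1) *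
        Real.log ((p : ℝ) + 1) := by
      rw [Real.log_mul (by positivity) hp0.ne']
      have h4 : Real.log (p : ℝ) ≤ Real.log ((p : ℝ) + 1) := Real.log_le_log hp0 (by linarith)
      nlinarith
    have h4 : (p : ℝ) * (D * Real.log B) ≤ p * (2 * D * Real.log B * Real.log ((p : ℝ) + 1)) := by
      have h5 : (0 : ℝ) ≤ D * Real.log B := by positivity
      refine mul_le_mul_of_nonneg_left ?_ hp0.le
      nlinarith
    calc ((D : ℝ) + 1) * p * Real.log (((D : ℝ) + 1) * p) + p * (D * Real.log B)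
        ≤ ((D : ℝ) + 1) * p * ((2 * Real.log ((D : ℝ) + 1) + 1) * Real.log ((p : ℝ) + 1)) +
          p * (2 * D * Real.log B * Real.log ((p : ℝ) + 1)) := by
          refine add_le_add ?_ h4
          exact mul_le_mul_of_nonneg_left h3 hDp.le
      _ = c2 * p * Real.log ((p : ℝ) + 1) := by rw [hc2]; ring
      _ ≤ max c1 c2 * p * Real.log ((p : ℝ) + 1) := by
          gcongr
          exact le_max_right _ _

end Pool.Agent.H39.EI.HAN
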